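import Pool.Agent.R816.ClosedSub

/-!
# The free Abelian topological group `A(X)` as a quotient of the free topological group `F(X)`

`ATG X` is the free Abelian group on the set `X`, with the finest group topology making the inclusion
`gen : X → ATG X` of the generators continuous. The canonical homomorphism `pr : F(X) → A(X)` is an
open quotient map; for a compact totally separated space `M` the topology of `A(M)` is the colimit
topology of the sets of words of bounded length.
-/

set_option autoImplicit false

open Topology Set

namespace Pool.Agent.U920.FA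

open Pool.Agent.R816

/-- The free Abelian topological group `A(X)` in the sense of Markov, as an abstract group: the free
Abelian group on the set `X`. -/
def ATG (X : Type) : Type := FreeAbelianGroup X

instance (X : Type) : AddCommGroup (ATG X) := inferInstanceAs (AddCommGroup (FreeAbelianGroup X))

/-- The inclusion of the generators. -/
def gen {X : Type} (x : X) : ATG X := (FreeAbelianGroup.of x : FreeAbelianGroup X)

/-- The topology of `A(X)`: the finest group topology on the free Abelian group on `X` for which the
inclusion of the generators is continuous. -/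
instance instTop (X : Type) [TopologicalSpace X] : TopologicalSpace (ATG X) :=
  sInf {t : TopologicalSpace (ATG X) |
    @IsTopologicalAddGroup (ATG X) t _ ∧ @Continuous X (ATG X) _ t gen}

instance (X : Type) [TopologicalSpace X] : IsTopologicalAddGroup (ATG X) :=
  topologicalAddGroup_sInf fun _ ht => ht.1

theorem continuous_gen (X : Type) [TopologicalSpace X] : Continuous (gen : X → ATG X) := by
  rw [continuous_sInf_rng]
  exact fun t ht => ht.2

/-- the homomorphism extending a map on the generators -/
def lift {X G : Type} [AddCommGroup G] (f : X → G) : ATG X →+ G :=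
  (FreeAbelianGroup.lift f : FreeAbelianGroup X →+ G)

@[simp] theorem lift_gen {X G : Type} [AddCommGroup G] (f : X → G) (x : X) :
    lift f (gen x) = f x := FreeAbelianGroup.lift_apply_of _ _

theorem hom_ext {X G : Type} [AddCommGroup G] {φ ψ : ATG X →+ G}
    (h : ∀ x, φ (gen x) = ψ (gen x)) : φ = ψ :=
  FreeAbelianGroup.lift_ext (φ : FreeAbelianGroup X →+ G) (ψ : FreeAbelianGroup X →+ G) h

theorem lift_continuous {X G : Type} [TopologicalSpace X] [AddCommGroup G] [TopologicalSpace G]
    [IsTopologicalAddGroup G] {f : X → G} (hf : Continuous f) : Continuous (lift f) := by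
  refine continuous_sInf_dom (t := TopologicalSpace.induced (lift f) inferInstance) ⟨?_, ?_⟩
    continuous_induced_dom
  · exact topologicalAddGroup_induced (lift f)
  · rw [continuous_induced_rng]
    have : (lift f ∘ gen) = f := funext fun x => lift_gen f x
    rw [this]
    exact hf

/-- Preimages under extensions of locally constant maps are open. -/
theorem isOpen_lift {X G : Type} [TopologicalSpace X] [AddCommGroup G] {f : X → G}
    (hf : IsLocallyConstant f) (S : Set G) : IsOpen (lift f ⁻¹' S) := by
  let _ : TopologicalSpace G := ⊥
  have : DiscreteTopology G := ⟨rfl⟩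
  exact (isOpen_discrete S).preimage (lift_continuous hf.continuous)

/-- functoriality -/
def map {X Y : Type} (f : X → Y) : ATG X →+ ATG Y := lift fun x => gen (f x)

@[simp] theorem map_gen {X Y : Type} (f : X → Y) (x : X) : map f (gen x) = gen (f x) :=
  lift_gen _ _

theorem map_continuous {X Y : Type} [TopologicalSpace X] [TopologicalSpace Y] {f : X → Y}
    (hf : Continuous f) : Continuous (map f) :=
  lift_continuous ((continuous_gen Y).comp hf)

theorem map_map {X Y Z : Type} (f : X → Y) (g : Y → Z) (w : ATG X) :
    map g (map f w) = map (fun x => g (f x)) w := by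
  have : (map g).comp (map f) = map (fun x => g (f x)) := hom_ext fun x => by simp
  exact DFunLike.congr_fun this w

/-! ### The projection from the free topological group -/

/-- the canonical homomorphism from the free group -/
def prm {X : Type} : FTG.FTG X →* Multiplicative (ATG X) :=
  FTG.lift fun x => Multiplicative.ofAdd (gen x)

/-- the canonical map from the free group -/
def pr {X : Type} (w : FTG.FTG X) : ATG X := Multiplicative.toAdd (prm w)

theorem pr_one {X : Type} : pr (1 : FTG.FTG X) = 0 := by
  unfold pr
  rw [map_one]
  rfl

theorem pr_mul {X : Type} (v w : FTG.FTG X) : pr (v * w) = pr v + pr w := by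
  unfold pr
  rw [map_mul]
  rfl

theorem pr_inv {X : Type} (w : FTG.FTG X) : pr w⁻¹ = - pr w := by
  unfold pr
  rw [map_inv]
  rfl

theorem pr_gen {X : Type} (x : X) : pr (FTG.gen x) = gen x := by
  unfold pr prm
  rw [FTG.lift_gen]
  rfl

theorem pr_surjective {X : Type} : Function.Surjective (pr : FTG.FTG X → ATG X) := by
  let R : AddSubgroup (ATG X) :=
    { carrier := range pr
      zero_mem' := ⟨1, pr_one⟩
      add_mem' := by
        rintro _ _ ⟨v, rfl⟩ ⟨w, rfl⟩
        exact ⟨v * w, pr_mul v w⟩
      neg_mem' := by
        rintro _ ⟨v, rfl⟩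
        exact ⟨v⁻¹, pr_inv v⟩ }
  intro w
  have h1 : w ∈ R := by
    refine FreeAbelianGroup.induction_on (motive := fun w : FreeAbelianGroup X => (w : ATG X) ∈ R) w
      R.zero_mem ?_ ?_ ?_
    · intro x
      exact ⟨FTG.gen x, pr_gen x⟩
    · intro x hx
      exact R.neg_mem hx
    · intro v w hv hw
      exact R.add_mem hv hw
  exact h1

theorem pr_continuous {X : Type} [TopologicalSpace X] : Continuous (pr : FTG.FTG X → ATG X) := by
  have h1 : Continuous fun x : X => Multiplicative.ofAdd (gen x) :=
    continuous_ofAdd.comp (continuous_gen X)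
  exact continuous_toAdd.comp (FTG.lift_continuous h1)

theorem pr_map {X Y : Type} (f : X → Y) (w : FTG.FTG X) :
    map f (pr w) = pr (FTG.map f w) := by
  have h1 : (AddMonoidHom.toMultiplicative (map f)).comp (prm : FTG.FTG X →* _) =
      (prm : FTG.FTG Y →* _).comp (FTG.map f) := by
    refine FTG.hom_ext fun x => ?_
    have h2 := map_gen f x
    rw [MonoidHom.comp_apply, MonoidHom.comp_apply, FTG.map_gen]
    unfold prm
    rw [FTG.lift_gen, FTG.lift_gen]
    exact congrArg Multiplicative.ofAdd h2
  exact congrArg Multiplicative.toAdd (DFunLike.congr_fun h1 w)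

/-- The quotient topology of the topology of `F(X)` is coarser than the topology of `A(X)` (they are
equal). -/
theorem instTop_le {X : Type} [TopologicalSpace X] :
    instTop X ≤ TopologicalSpace.coinduced (pr : FTG.FTG X → ATG X) (FTG.instTop X) := by
  refine sInf_le ⟨?_, ?_⟩
  · let tq : TopologicalSpace (Multiplicative (ATG X)) :=
      TopologicalSpace.coinduced (prm : FTG.FTG X → Multiplicative (ATG X)) (FTG.instTop X)
    have hq : @IsQuotientMap _ _ (FTG.instTop X) tq (prm : FTG.FTG X → Multiplicative (ATG X)) :=
      ⟨⟨rfl⟩, fun w => pr_surjective (X := X) w⟩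
    have ho : @IsOpenQuotientMap _ _ (FTG.instTop X) tq
        (prm : FTG.FTG X → Multiplicative (ATG X)) :=
      @MonoidHom.isOpenQuotientMap_of_isQuotientMap _ _ _ _ _ _ tq _ _ _ prm hq
    have hm : @Continuous _ _ (@instTopologicalSpaceProd _ _ tq tq) tq
        (fun p : Multiplicative (ATG X) × Multiplicative (ATG X) => p.1 * p.2) := by
      have h1 := (@IsOpenQuotientMap.prodMap _ _ _ _ (FTG.instTop X) tq (FTG.instTop X) tq _ _ ho ho)
      rw [(@IsOpenQuotientMap.isQuotientMap _ _ _ (_) _ h1).continuous_iff]
      have h2 : ((fun p : Multiplicative (ATG X) × Multiplicative (ATG X) => p.1 * p.2) ∘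
          Prod.map (prm : FTG.FTG X → Multiplicative (ATG X)) prm) =
          fun p => prm (p.1 * p.2) := by
        funext p
        simp
      rw [h2]
      exact hq.continuous.comp continuous_mul
    have hi : @Continuous _ _ tq tq (fun p : Multiplicative (ATG X) => p⁻¹) := by
      rw [hq.continuous_iff]
      have h2 : ((fun p : Multiplicative (ATG X) => p⁻¹) ∘
          (prm : FTG.FTG X → Multiplicative (ATG X))) = fun p => prm (p⁻¹) := by
        funext p
        simp
      rw [h2]
      exact hq.continuous.comp continuous_inv
    let tq' : TopologicalSpace (ATG X) :=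
      TopologicalSpace.coinduced (pr : FTG.FTG X → ATG X) (FTG.instTop X)
    have hm' : @Continuous _ _ (@instTopologicalSpaceProd _ _ tq' tq') tq'
        (fun p : ATG X × ATG X => p.1 + p.2) := hm
    have hi' : @Continuous _ _ tq' tq' (fun p : ATG X => -p) := hi
    exact @IsTopologicalAddGroup.mk (ATG X) tq' _ (@ContinuousAdd.mk (ATG X) tq' _ hm')
      (@ContinuousNeg.mk (ATG X) tq' _ hi')
  · rw [@continuous_def _ _ _ (_)]
    intro O hO
    have h1 : IsOpen[FTG.instTop X] ((pr : FTG.FTG X → ATG X) ⁻¹' O) := hO
    have h2 := h1.preimage (FTG.continuous_gen X)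
    convert h2 using 1
    ext x
    simp [pr_gen]

theorem isOpen_of_pr {X : Type} [TopologicalSpace X] {O : Set (ATG X)}
    (hO : IsOpen ((pr : FTG.FTG X → ATG X) ⁻¹' O)) : IsOpen O :=
  instTop_le _ hO

theorem continuous_of_pr {X Y : Type} [TopologicalSpace X] [TopologicalSpace Y] {f : ATG X → Y}
    (hf : Continuous fun w : FTG.FTG X => f (pr w)) : Continuous f :=
  ⟨fun _ hO => isOpen_of_pr (hO.preimage hf)⟩

end Pool.Agent.U920.FA
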