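import Pool.Agent.U920.FA.Letters

/-!
# A closed subgroup of a free Abelian topological group which is a `k_R`-space need not be a
`k_R`-space
-/

set_option autoImplicit false

open Topology Set Cardinal Filter

namespace Pool.Agent.U920.FA

open Pool.Agent.R816 Pool.Agent.R816.Dep
open Pool.Agent.R816.FTG (Lam q)
open Pool.Agent.R816.ClosedSub (X e e' e_iff e_injective e'_injective isClopen_coord letter
  exists_letter map_q)

/-- `k_R`-spaces -/
def IsKR (Y : Type) [TopologicalSpace Y] : Prop :=
  ∀ f : Y → ℝ, (∀ K : Set Y, IsCompact K → ContinuousOn f K) → Continuous f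

/-- If `F(Y)` is a `k_R`-space then so is its quotient `A(Y)`. -/
theorem isKR_of_FTG {Y : Type} [TopologicalSpace Y] (h : IsKR (FTG.FTG Y)) : IsKR (ATG Y) := by
  intro f hf
  refine continuous_of_pr (h _ fun K hK => ?_)
  exact (hf _ (hK.image pr_continuous)).comp pr_continuous.continuousOn (mapsTo_image _ _)

theorem isKR_ATG : IsKR (ATG X) := isKR_of_FTG ClosedSub.isKR_FTG

/-! ### The closed subgroup -/

/-- the subgroup generated by the evaluation points -/
noncomputable def H : AddSubgroup (ATG X) := AddSubgroup.closure (gen '' (range e'))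

/-- A general criterion. -/
theorem isClosed_closure {Y : Type} [TopologicalSpace Y] [TotallySeparatedSpace Y] {E : Set Y}
    (hE : ∀ x ∉ E, ∃ U : Set Y, IsClopen U ∧ x ∈ U ∧ ∀ y ∈ E, y ∉ U) :
    IsClosed (AddSubgroup.closure ((gen : Y → ATG Y) '' E) : Set (ATG Y)) := by
  classical
  let ρ : Set Y → Y → ATG Y := fun U y => if y ∈ U then 0 else gen y
  have hρ : ∀ U, IsClopen U → Continuous (ρ U) := by
    intro U hU
    refine Continuous.if (fun y hy => ?_) continuous_const (continuous_gen Y)
    have : frontier {y | y ∈ U} = ∅ := hU.frontier_eq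
    rw [this] at hy
    exact absurd hy (by simp)
  have h1 : (AddSubgroup.closure ((gen : Y → ATG Y) '' E) : Set (ATG Y)) =
      ⋂ U ∈ {U : Set Y | IsClopen U ∧ ∀ y ∈ E, y ∉ U}, {w | lift (ρ U) w = w} := by
    ext w
    simp only [mem_iInter, SetLike.mem_coe, mem_ofPred_eq]
    constructor
    · intro hw U hU
      have h2 : AddSubgroup.closure ((gen : Y → ATG Y) '' E) ≤
          (lift (ρ U)).eqLocus (AddMonoidHom.id (ATG Y)) := by
        rw [AddSubgroup.closure_le]
        rintro _ ⟨x, hx, rfl⟩
        change lift _ (gen x) = gen x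
        rw [lift_gen]
        simp [ρ, hU.2 x hx]
      exact h2 hw
    · intro h
      refine mem_of_letters fun x hx => ?_
      by_contra hxE
      obtain ⟨U, hU, hxU, hUE⟩ := hE x hxE
      have h3 := h U ⟨hU, hUE⟩
      have h4 := eq_of_delete (S := Uᶜ) (f := ρ U) (fun y hy => by
          have hy' : y ∉ U := hy
          simp [ρ, hy'])
        (fun y hy => by
          have hy' : y ∈ U := not_not.1 hy
          simp [ρ, hy']) h3 x hx
      exact h4 hxU
  rw [h1]
  refine isClosed_biInter fun U hU => ?_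
  exact isClosed_eq (lift_continuous (hρ U hU.1)) continuous_id

theorem isClosed_H : IsClosed (H : Set (ATG X)) := by
  refine isClosed_closure fun x hx => ?_
  have hcard : #(supp x.1) < 𝔠 := by
    rcases x.2 with h | ⟨n, hn⟩
    · exact h
    · exact absurd ⟨n, Subtype.ext hn.symm⟩ hx
  obtain ⟨A, hA⟩ : ∃ A : Set ℕ, x.1 A = x.1 Aᶜ := by
    by_contra hcon
    push Not at hcon
    have h1 : (Set.univ : Set (Set ℕ)) ⊆ supp x.1 ∪ compl '' supp x.1 := by
      intro A _
      by_cases h : x.1 A = true
      · exact Or.inl h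
      · right
        refine ⟨Aᶜ, ?_, compl_compl A⟩
        have h2 := hcon A
        have h3 : x.1 A = false := by simpa using h
        rw [h3] at h2
        exact (by simpa using h2.symm : x.1 Aᶜ = true)
    have h2 : #(Set.univ : Set (Set ℕ)) < 𝔠 := by
      refine ((Cardinal.mk_le_mk_of_subset h1).trans (Cardinal.mk_union_le _ _)).trans_lt ?_
      exact Cardinal.add_lt_of_lt aleph0_le_continuum hcard (Cardinal.mk_image_le.trans_lt hcard)
    rw [Cardinal.mk_univ, mk_set_nat] at h2
    exact lt_irrefl _ h2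
  refine ⟨{z : X | z.1 A = z.1 Aᶜ}, isClopen_coord (P := fun a b => a = b) A Aᶜ, hA, ?_⟩
  rintro _ ⟨n, rfl⟩ h
  have h1 : e n A = e n Aᶜ := h
  by_cases hn : n ∈ A
  · have h2 : e n A = true := e_iff.2 hn
    rw [h1, e_iff] at h2
    exact h2 hn
  · have h2 : e n Aᶜ = true := e_iff.2 hn
    rw [← h1, e_iff] at h2
    exact hn h2

theorem gen_mem (n : ℕ) : gen (e' n) ∈ H :=
  AddSubgroup.subset_closure (mem_image_of_mem (gen : X → ATG X) (mem_range_self n))

/-! ### The subgroup is not discrete -/

theorem exists_mem_nhds {U : Set (ATG X)} (hU : U ∈ 𝓝 (0 : ATG X)) :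
    ∃ n m : ℕ, n ≠ m ∧ - gen (e' n) + gen (e' m) ∈ U := by
  have h1 : (pr : FTG.FTG X → ATG X) ⁻¹' U ∈ 𝓝 (1 : FTG.FTG X) := by
    refine pr_continuous.continuousAt ?_
    rw [pr_one]
    exact hU
  obtain ⟨n, m, hnm, h⟩ := ClosedSub.exists_mem_nhds h1
  refine ⟨n, m, hnm, ?_⟩
  have h2 : pr ((FTG.gen (e' n))⁻¹ * FTG.gen (e' m)) ∈ U := h
  rwa [pr_mul, pr_inv, pr_gen, pr_gen] at h2

/-! ### Compact subsets of the subgroup are finite -/

theorem map_ne_zero {Y Z : Type} {k : Y → Z} {w : ATG Y} (hk : Set.InjOn k (letters w))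
    (hw : w ≠ 0) : map k w ≠ 0 := by
  classical
  intro h
  rcases isEmpty_or_nonempty Y with hY | hY
  · refine hw ?_
    have h2 : (AddMonoidHom.id (ATG Y)) = 0 := hom_ext fun x => (hY.false x).elim
    exact DFunLike.congr_fun h2 w
  · have h1 : map (fun y => Function.invFunOn k (letters w) (k y)) w = w :=
      map_fix fun x hx => hk.leftInvOn_invFunOn hx
    rw [← map_map, h, _root_.map_zero] at h1
    exact hw h1.symm

theorem map_aq {Y Z : Type} [Nonempty Y] (φ : Y → Z) (n : ℕ) (u : Fin n → Lam Y) :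
    map φ (aq n u) ∈ range (aq n : (Fin n → Lam Z) → ATG Z) := by
  choose c x hcx using fun i => exists_letter (u i)
  have hu : u = fun i => letter (c i) (x i) := funext hcx
  rw [hu]
  refine ⟨fun i => letter (c i) (φ (x i)), ?_⟩
  unfold aq
  rw [pr_map, map_q]

theorem finite_of_isCompact {K : Set (ATG X)} (hK : IsCompact K) (hKH : K ⊆ H) : K.Finite := by
  classical
  by_contra hinf
  -- lengths are bounded
  have hlen : ∃ N, K ⊆ range (aq N : (Fin N → Lam X) → ATG X) := by
    have hTS : TotallySeparatedSpace (Set ℕ → Bool) := inferInstance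
    have h1 : IsCompact (map (Subtype.val : X → Set ℕ → Bool) '' K) :=
      hK.image (map_continuous continuous_subtype_val)
    obtain ⟨N, hN⟩ := bounded_of_isCompact h1
    refine ⟨N, fun w hw => ?_⟩
    obtain ⟨u, hu⟩ := hN (mem_image_of_mem _ hw)
    have h3 : map (Function.invFun (Subtype.val : X → Set ℕ → Bool))
        (map (Subtype.val : X → Set ℕ → Bool) w) = w := by
      rw [map_map]
      exact map_fix fun x _ => Function.leftInverse_invFun Subtype.val_injective x
    rw [← h3, ← hu]
    exact map_aq _ N u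
  obtain ⟨N, hN⟩ := hlen
  -- the subgroup is countable
  have hHc : (H : Set (ATG X)).Countable := by
    have h1 : H ≤ (map e').range := by
      unfold H
      rw [AddSubgroup.closure_le]
      rintro _ ⟨_, ⟨n, rfl⟩, rfl⟩
      exact ⟨gen n, map_gen e' n⟩
    have h2 : Countable (ATG ℕ) := by
      refine Function.Injective.countable (f := (cf : ATG ℕ → ℕ →₀ ℤ)) cf.injective
    refine (Set.countable_range (map e')).mono ?_
    intro w hw
    exact h1 hw
  obtain ⟨w, hw, s, hs, hlim⟩ := Comb.exists_seq hK (hHc.mono hKH) hinf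
  let u : ℕ → ATG X := fun k => -w + s k
  have hu1 : ∀ k, u k ≠ 0 := by
    intro k h
    exact (hs k).2 (neg_add_eq_zero.1 h).symm
  have huH : ∀ k, u k ∈ H := fun k => add_mem (neg_mem (hKH hw)) (hKH (hs k).1)
  have hulen : ∀ k, (letters (u k)).card ≤ N + N := by
    intro k
    obtain ⟨v1, hv1⟩ := hN hw
    obtain ⟨v2, hv2⟩ := hN (hs k).1
    have h1 := card_letters_aq N v1
    have h2 := card_letters_aq N v2
    rw [hv1] at h1
    rw [hv2] at h2
    refine (Finset.card_le_card (letters_add _ _)).trans ((Finset.card_union_le _ _).trans ?_)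
    rw [letters_neg]
    omega
  have hulim : Tendsto u atTop (𝓝 0) := by
    have h1 : Tendsto u atTop (𝓝 (-w + w)) := hlim.const_add (-w)
    rwa [neg_add_cancel] at h1
  let idx : X → ℕ := Function.invFun e'
  have hidx : ∀ n, idx (e' n) = n := Function.leftInverse_invFun e'_injective
  let L : ℕ → Finset ℕ := fun k => (letters (u k)).image idx
  obtain ⟨φ, hφ, Q, κ, hκQ, hκ⟩ := Comb.exists_coloring (N + N) L (fun k =>
    Finset.card_image_le.trans (hulen k))
  -- the colouring of the space
  let kk : X → (Fin Q → Bool) := fun x t => x.1 {n | κ n = t}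
  have hkk : IsLocallyConstant kk := by
    rw [IsLocallyConstant.iff_continuous]
    exact continuous_pi fun t => (continuous_apply _).comp continuous_subtype_val
  have hopen : IsOpen (map kk ⁻¹' {0}) := by
    refine isOpen_lift (G := ATG (Fin Q → Bool)) (f := fun x => gen (kk x)) ?_ {0}
    exact hkk.comp gen
  have hev : ∀ᶠ k in atTop, map kk (u k) = 0 :=
    hulim (hopen.mem_nhds (by simp))
  obtain ⟨k0, hk0⟩ := eventually_atTop.1 hev
  have h1 := hk0 (φ k0) (hφ.id_le k0)
  refine map_ne_zero ?_ (hu1 (φ k0)) h1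
  have hE : ∀ x ∈ letters (u (φ k0)), ∃ n, x = e' n := by
    intro x hx
    obtain ⟨n, hn⟩ := letters_sub_of_mem (huH (φ k0)) x hx
    exact ⟨n, hn.symm⟩
  intro x hx y hy hxy
  obtain ⟨n, rfl⟩ := hE x hx
  obtain ⟨m, rfl⟩ := hE y hy
  have hnL : n ∈ L (φ k0) := by
    have := Finset.mem_image_of_mem idx hx
    rwa [hidx] at this
  have hmL : m ∈ L (φ k0) := by
    have := Finset.mem_image_of_mem idx hy
    rwa [hidx] at this
  have h2 : κ n = κ m := by
    have h3 := congrFun hxy ⟨κ n, hκQ n⟩
    have h4 : e n {a | κ a = κ n} = true := e_iff.2 rfl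
    have h5 : e m {a | κ a = κ n} = true := by
      rw [← h4]
      exact h3.symm
    exact (e_iff.1 h5 : κ m = κ n).symm
  rw [hκ k0 hnL hmL h2]

theorem not_isKR_H : ¬ IsKR H := by
  classical
  intro h
  have h1 : Continuous (fun x : H => if x = 0 then (1 : ℝ) else 0) := by
    refine h _ fun K hK => ?_
    have h2 : K.Finite := by
      have h3 : (Subtype.val '' K : Set (ATG X)).Finite := by
        refine finite_of_isCompact (hK.image continuous_subtype_val) ?_
        rintro _ ⟨x, _, rfl⟩
        exact x.2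
      exact h3.of_finite_image Subtype.val_injective.injOn
    exact h2.continuousOn _
  have h2 : IsOpen ({0} : Set H) := by
    have h3 := (isOpen_lt (continuous_const (y := (1 / 2 : ℝ))) h1)
    convert h3 using 1
    ext x
    simp only [mem_singleton_iff, mem_ofPred_eq]
    constructor
    · intro hx
      rw [if_pos hx]
      norm_num
    · intro hx
      by_contra hne
      rw [if_neg hne] at hx
      norm_num at hx
  obtain ⟨U, hU, hUH⟩ := isOpen_induced_iff.1 h2
  have h3 : (0 : ATG X) ∈ U := by
    have h4 : (0 : H) ∈ (Subtype.val ⁻¹' U : Set H) := by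
      rw [hUH]
      rfl
    exact h4
  obtain ⟨n, m, hnm, hmem⟩ := exists_mem_nhds (hU.mem_nhds h3)
  have h5 : -gen (e' n) + gen (e' m) ∈ H := add_mem (neg_mem (gen_mem n)) (gen_mem m)
  have h6 : (⟨_, h5⟩ : H) ∈ (Subtype.val ⁻¹' U : Set H) := hmem
  rw [hUH, mem_singleton_iff] at h6
  have h7 : -gen (e' n) + gen (e' m) = 0 := congrArg Subtype.val h6
  exact hnm (e'_injective (gen_injective (neg_add_eq_zero.1 h7)))

end Pool.Agent.U920.FA
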