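import Pool.Agent.U920.FA.Basic

/-!
# Letters of the elements of a free Abelian group, separation, compact sets
-/

set_option autoImplicit false

open Topology Set

namespace Pool.Agent.U920.FA

open Pool.Agent.R816
open Pool.Agent.R816.FTG (Lam q q_surj q_pad range_mono q_continuous exists_retract)

/-- the coefficients -/
noncomputable def cf {X : Type} : ATG X ≃+ (X →₀ ℤ) := FreeAbelianGroup.equivFinsupp X

theorem cf_gen {X : Type} (x : X) : cf (gen x) = Finsupp.single x 1 :=
  FreeAbelianGroup.toFinsupp_of x

/-- the set of the letters which occur -/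
noncomputable def letters {X : Type} (w : ATG X) : Finset X := (cf w).support

theorem repr {X : Type} (w : ATG X) : w = ∑ x ∈ letters w, cf w x • gen x := by
  classical
  apply cf.injective
  rw [map_sum]
  have h1 : ∀ x, cf (cf w x • gen x) = Finsupp.single x (cf w x) := by
    intro x
    rw [map_zsmul, cf_gen, Finsupp.smul_single]
    simp
  rw [Finset.sum_congr rfl fun x _ => h1 x]
  exact (Finsupp.sum_single (cf w)).symm

theorem lift_congr {X G : Type} [AddCommGroup G] {f g : X → G} {w : ATG X}
    (h : ∀ x ∈ letters w, f x = g x) : lift f w = lift g w := by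
  have hw := repr w
  rw [hw, map_sum, map_sum]
  refine Finset.sum_congr rfl fun x hx => ?_
  rw [map_zsmul, map_zsmul, lift_gen, lift_gen, h x hx]

theorem lift_gen_self {X : Type} (w : ATG X) : lift (gen : X → ATG X) w = w := by
  have : lift (gen : X → ATG X) = AddMonoidHom.id (ATG X) := hom_ext fun x => by simp
  rw [this]
  rfl

theorem map_fix {X : Type} {c : X → X} {w : ATG X} (h : ∀ x ∈ letters w, c x = x) :
    map c w = w := by
  have h1 : map c w = lift gen w := lift_congr fun x hx => by rw [h x hx]
  rw [h1, lift_gen_self]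

theorem letters_add {X : Type} [DecidableEq X] (v w : ATG X) :
    letters (v + w) ⊆ letters v ∪ letters w := by
  unfold letters
  rw [map_add]
  exact Finsupp.support_add

theorem letters_neg {X : Type} (w : ATG X) : letters (-w) = letters w := by
  unfold letters
  rw [map_neg, Finsupp.support_neg]

theorem letters_gen {X : Type} (x : X) : letters (gen x) = {x} := by
  classical
  unfold letters
  rw [cf_gen]
  exact Finsupp.support_single _ one_ne_zero

theorem letters_zero {X : Type} : letters (0 : ATG X) = ∅ := by
  unfold letters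
  rw [map_zero]
  exact Finsupp.support_zero

theorem gen_injective {X : Type} : Function.Injective (gen : X → ATG X) :=
  FreeAbelianGroup.of_injective

theorem letters_sub_of_mem {X : Type} {S : Set X} {w : ATG X}
    (hw : w ∈ AddSubgroup.closure ((gen : X → ATG X) '' S)) : ∀ x ∈ letters w, x ∈ S := by
  classical
  induction hw using AddSubgroup.closure_induction with
  | mem w hw =>
    obtain ⟨y, hy, rfl⟩ := hw
    intro x hx
    rw [letters_gen, Finset.mem_singleton] at hx
    rw [hx]
    exact hy
  | zero =>
    intro x hx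
    rw [letters_zero] at hx
    simp at hx
  | add v w _ _ hv hw =>
    intro x hx
    rcases Finset.mem_union.1 (letters_add v w hx) with h | h
    · exact hv x h
    · exact hw x h
  | neg w _ hw =>
    intro x hx
    rw [letters_neg] at hx
    exact hw x hx

theorem mem_of_letters {X : Type} {S : Set X} {w : ATG X} (h : ∀ x ∈ letters w, x ∈ S) :
    w ∈ AddSubgroup.closure ((gen : X → ATG X) '' S) := by
  rw [repr w]
  refine AddSubgroup.sum_mem _ fun x hx => ?_
  exact AddSubgroup.zsmul_mem _
    (AddSubgroup.subset_closure (mem_image_of_mem (gen : X → ATG X) (h x hx))) _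

/-- deleting letters -/
theorem eq_of_delete {X : Type} {S : Set X} {w : ATG X} {f : X → ATG X}
    (hf : ∀ x ∈ S, f x = gen x) (hf' : ∀ x ∉ S, f x = 0) (hw : lift f w = w) :
    ∀ x ∈ letters w, x ∈ S := by
  classical
  intro x hx
  have h1 : lift f w ∈ AddSubgroup.closure ((gen : X → ATG X) '' S) := by
    rw [repr w, map_sum]
    refine AddSubgroup.sum_mem _ fun y _ => ?_
    rw [map_zsmul, lift_gen]
    refine AddSubgroup.zsmul_mem _ ?_ _
    by_cases hy : y ∈ S
    · rw [hf y hy]
      exact AddSubgroup.subset_closure (mem_image_of_mem (gen : X → ATG X) hy)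
    · rw [hf' y hy]
      exact AddSubgroup.zero_mem _
  rw [hw] at h1
  exact letters_sub_of_mem h1 x hx

/-! ### Separation -/

section sep

variable {X : Type} [TopologicalSpace X] [TotallySeparatedSpace X]

omit [TotallySeparatedSpace X] in
theorem isOpen_map {c : X → X} (hc : IsLocallyConstant c) (S : Set (ATG X)) :
    IsOpen (map c ⁻¹' S) := by
  refine isOpen_lift (X := X) (G := ATG X) (f := fun x => gen (c x)) ?_ S
  exact hc.comp gen

instance : T2Space (ATG X) := by
  refine ⟨fun v w hvw => ?_⟩
  classical
  obtain ⟨c, hc, hL⟩ := exists_retract (letters v ∪ letters w)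
  have hv : map c v = v := map_fix fun x hx => hL x (Finset.mem_union_left _ hx)
  have hw : map c w = w := map_fix fun x hx => hL x (Finset.mem_union_right _ hx)
  refine ⟨map c ⁻¹' {v}, map c ⁻¹' {w}, isOpen_map hc _, isOpen_map hc _, ?_, ?_, ?_⟩
  · simp [hv]
  · simp [hw]
  · rw [Set.disjoint_left]
    intro u hu hu'
    simp only [mem_preimage, mem_singleton_iff] at hu hu'
    exact hvw (hu.symm.trans hu')

end sep

/-! ### Words -/

/-- evaluation of words in the free Abelian group -/
def aq {M : Type} (n : ℕ) (u : Fin n → Lam M) : ATG M := pr (q n u)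

theorem aq_continuous {M : Type} [TopologicalSpace M] (n : ℕ) :
    Continuous (aq n : (Fin n → Lam M) → ATG M) := pr_continuous.comp (q_continuous n)

theorem arange_mono {M : Type} {n m : ℕ} (h : n ≤ m) :
    range (aq n : (Fin n → Lam M) → ATG M) ⊆ range (aq m) := by
  rintro _ ⟨u, rfl⟩
  obtain ⟨v, hv⟩ := range_mono (M := M) h ⟨u, rfl⟩
  exact ⟨v, congrArg pr hv⟩

theorem aq_surj {M : Type} (w : ATG M) : ∃ n, w ∈ range (aq n : (Fin n → Lam M) → ATG M) := by
  obtain ⟨v, rfl⟩ := pr_surjective w
  obtain ⟨n, u, hu⟩ := q_surj v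
  exact ⟨n, u, congrArg pr hu⟩

theorem card_letters_aq {M : Type} (n : ℕ) (u : Fin n → Lam M) : (letters (aq n u)).card ≤ n := by
  classical
  induction n with
  | zero =>
    have : aq 0 u = 0 := pr_one
    rw [this, letters_zero]
    simp
  | succ n ih =>
    have h0 : aq (n + 1) u = pr (FTG.lam (u 0)) + aq n (fun i => u i.succ) := by
      unfold aq
      rw [FTG.q_succ, pr_mul]
    have h1 : ∀ a : Lam M, (letters (pr (FTG.lam a))).card ≤ 1 := by
      rintro ((a | a) | a)
      · have : pr (FTG.lam (Sum.inl (Sum.inl a) : Lam M)) = gen a := pr_gen a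
        rw [this, letters_gen]
        simp
      · have : pr (FTG.lam (Sum.inl (Sum.inr a) : Lam M)) = - gen a := by
          change pr (FTG.gen a)⁻¹ = _
          rw [pr_inv, pr_gen]
        rw [this, letters_neg, letters_gen]
        simp
      · have : pr (FTG.lam (Sum.inr a : Lam M)) = 0 := pr_one
        rw [this, letters_zero]
        simp
    rw [h0]
    refine (Finset.card_le_card (letters_add _ _)).trans ((Finset.card_union_le _ _).trans ?_)
    have h2 := h1 (u 0)
    have h3 := ih fun i => u i.succ
    omega

section comp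

variable {M : Type} [TopologicalSpace M] [CompactSpace M] [T2Space M] [TotallySeparatedSpace M]

/-- A subset of `A(M)` is open if its preimages in the spaces of words are open. -/
theorem isOpen_of_aq {O : Set (ATG M)} (hO : ∀ n, IsOpen (aq n ⁻¹' O)) : IsOpen O :=
  isOpen_of_pr (FTG.isOpen_of_q hO)

/-- Compact subsets consist of words of bounded length. -/
theorem bounded_of_isCompact {K : Set (ATG M)} (hK : IsCompact K) :
    ∃ n, K ⊆ range (aq n : (Fin n → Lam M) → ATG M) := by
  by_contra hcon
  push Not at hcon
  have h1 : ∀ n, ∃ w ∈ K, w ∉ range (aq n : (Fin n → Lam M) → ATG M) := fun n =>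
    not_subset.1 (hcon n)
  choose w hwK hw using h1
  let T : ℕ → Set (ATG M) := fun n => {x | ∃ m, n ≤ m ∧ x = w m}
  have hT : ∀ n, IsClosed (T n) := by
    intro n
    rw [← isOpen_compl_iff]
    refine isOpen_of_aq fun m => ?_
    rw [preimage_compl, isOpen_compl_iff]
    have h2 : (aq m : (Fin m → Lam M) → ATG M) ⁻¹' (T n) =
        aq m ⁻¹' ((fun i => w i) '' {i | i ≤ m ∧ n ≤ i}) := by
      ext u
      simp only [T, mem_preimage, mem_ofPred_eq, mem_image]
      constructor
      · rintro ⟨i, hi, h⟩
        refine ⟨i, ⟨?_, hi⟩, h.symm⟩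
        by_contra hc
        exact hw i (arange_mono (not_le.1 hc).le ⟨u, h⟩)
      · rintro ⟨i, ⟨_, hi⟩, h⟩
        exact ⟨i, hi, h.symm⟩
    rw [h2]
    refine IsClosed.preimage (aq_continuous m) (Set.Finite.isClosed ?_)
    exact ((Set.finite_Iic m).subset fun i hi => hi.1).image _
  obtain ⟨x, hx⟩ := IsCompact.nonempty_iInter_of_sequence_nonempty_isCompact_isClosed T
    (fun n => by
      rintro x ⟨m, hm, rfl⟩
      exact ⟨m, (Nat.le_succ n).trans hm, rfl⟩)
    (fun n => ⟨w n, n, le_rfl, rfl⟩)
    (hK.of_isClosed_subset (hT 0) (by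
      rintro x ⟨m, _, rfl⟩
      exact hwK m))
    hT
  obtain ⟨N, hN⟩ := aq_surj x
  obtain ⟨m, hm, rfl⟩ := mem_iInter.1 hx N
  exact hw m (arange_mono hm hN)

end comp

end Pool.Agent.U920.FA
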